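import Mathlib
import Pool.Agent.H306R2.RG.Defs
import Pool.Agent.H423R2.RZA.MR4

/-!
Project RG, task MR4G.  The statements `KEG`, `GBG`, `W3`, `W4` are taken as hypotheses.
-/

set_option autoImplicit false

namespace Pool.Agent.H388R3.RGMR4

open Finset Filter Topology MeasureTheory Pool.Agent.H306R2.RZ Pool.Agent.H306R2.RG
open Pool.Agent.H423R2.RZA.MR4n (cut_off cs perturb Gr Gr_Ph Gr_Ph1 Ph_cont Ph1_cont abs_js_le
  St_W3 St_W4)

def St_KEG (φ : FD) : Prop := ∀ (F : ℝ → ℝ) (_ : TF F) (_ : ∀ x, 0 ≤ F x) (δ e θ : ℝ)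
    (_ : 0 < δ) (_ : 0 < e) (_ : e ≤ 1) (_ : Adm2 (1 / 2 + 3 * δ) θ) (κ : ℝ → ℝ)
    (_ : KP δ e κ) (X1 : ℝ) (_ : 0 ≤ X1),
    ∃ (C L0 : ℝ) (k : ℕ), 0 < C ∧ 0 < L0 ∧ ∀ (L : ℝ) (Φ Q : ℝ → ℝ) (B B' : ℝ), L0 ≤ L →
      ContDiff ℝ ((⊤ : ℕ∞) : WithTop ℕ∞) Φ → (∀ τ, τ ≤ -δ → Φ τ = 0) →
      (∀ j ≤ k, ∀ τ, |iteratedDeriv j Φ τ| ≤ B * Real.exp (X1 * |τ|)) →
      (∀ j : ℕ, ∃ B' : ℝ, ∀ τ, |iteratedDeriv j Φ τ| ≤ B' * Real.exp (X1 * |τ|)) →
      Wt θ Q → Bd k Q B' →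
      EAg φ F (Real.exp L) (fun d => ((Nfg φ L (KGg φ L (beg φ L d) Φ) d -
        ceg φ * Ndg φ 2 L (fun y => Φ (1 / 2 - y) * κ y) d) * Mdg φ 2 L Q d) ^ 2) ≤
        C * B ^ 2 * B' ^ 2 / L ^ 2

def St_GBG (φ : FD) : Prop := ∀ (F : ℝ → ℝ) (_ : TF F) (_ : ∀ x, 0 ≤ F x) (q : ℕ)
    (_ : Even q) (_ : q ≠ 0) (c : ℝ) (_ : 0 < c) (s θ : ℝ) (_ : Adm2 s θ),
    ∃ (C L0 : ℝ) (k : ℕ), 0 < C ∧ ∀ L : ℝ, L0 ≤ L → ∀ (w w' Q Q' : ℝ → ℝ) (B B' m m' : ℝ),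
      Wt s w → Wt s w' → Wt θ Q → Wt θ Q' → Bd k w B → Bd k w' B → Bd k Q B' → Bd k Q' B' →
      EAg φ F (c * Real.exp L) (fun d => (Ndg φ q L w d * Mdg φ q L Q d) ^ 2) ≤ C * B ^ 2 * B' ^ 2 ∧
      EAg φ F (c * Real.exp L) (fun d => G0g φ q L m w Q d ^ 2) ≤
        C * (1 + m ^ 2 * B ^ 2 * B' ^ 2) ∧
      EAg φ F (c * Real.exp L) (fun d => G1g φ q L m m' w w' Q Q' d ^ 2) ≤
        C * ((m ^ 2 + m' ^ 2) * B ^ 2 * B' ^ 2)

/-! ### averages -/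

theorem EAg_fin (φ : FD) (F : ℝ → ℝ) (hF : TF F) (hF0 : ∀ x, 0 ≤ F x) (X : ℝ) (hX : 0 < X) :
    ∃ (S : Finset ℕ) (ω : ℕ → ℝ), (∀ d, 0 ≤ ω d) ∧
      ∀ f : ℕ → ℝ, EAg φ F X f = ∑ d ∈ S, ω d * f d := by
  classical
  obtain ⟨M, hM⟩ : ∃ M : ℝ, ∀ x, M < x → F x = 0 := by
    obtain ⟨M, hM⟩ := hF.cpt.isCompact.bddAbove
    refine ⟨M, fun x hx => ?_⟩
    by_contra h
    exact absurd (hM (subset_tsupport _ h)) (not_le.2 hx)
  refine ⟨(Finset.range (⌈M * X⌉₊ + 1)).filter (fun d : ℕ => φ.A d ∧ F ((d : ℝ) / X) ≠ 0),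
    fun d : ℕ => F ((d : ℝ) / X) / X, fun d => div_nonneg (hF0 _) hX.le, ?_⟩
  intro f
  have hts : (∑' d : ℕ, if φ.A d then F ((d : ℝ) / X) * f d else 0) =
      ∑ d ∈ (Finset.range (⌈M * X⌉₊ + 1)).filter (fun d : ℕ => φ.A d ∧ F ((d : ℝ) / X) ≠ 0),
        if φ.A d then F ((d : ℝ) / X) * f d else 0 := by
    apply tsum_eq_sum
    intro d hd
    by_cases ho : φ.A d
    · rw [if_pos ho]
      by_cases h0 : F ((d : ℝ) / X) = 0
      · rw [h0, zero_mul]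
      · exfalso
        apply hd
        rw [Finset.mem_filter]
        refine ⟨?_, ho, h0⟩
        rw [Finset.mem_range]
        have h1 : (d : ℝ) / X ≤ M := by
          by_contra h
          exact h0 (hM _ (not_le.1 h))
        rw [div_le_iff₀ hX] at h1
        have h2 : (d : ℝ) ≤ ⌈M * X⌉₊ := h1.trans (Nat.le_ceil _)
        have h3 : d ≤ ⌈M * X⌉₊ := by exact_mod_cast h2
        omega
    · rw [if_neg ho]
  have hdef : EAg φ F X f = (∑' d : ℕ, if φ.A d then F ((d : ℝ) / X) * f d else 0) / X := by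
    unfold EAg
    congr 1
  rw [hdef, hts, Finset.sum_div]
  refine Finset.sum_congr rfl fun d hd => ?_
  rw [if_pos (Finset.mem_filter.1 hd).2.1]
  ring

/-! ### continuity in `x` -/

theorem Ndg_cont (φ : FD) (w : ℝ → ℝ → ℝ) (s : ℝ) (hw : Continuous (fun p : ℝ × ℝ => w p.1 p.2))
    (hs : ∀ x y, w x y ≠ 0 → y ≤ s) (L : ℝ) (hL : 0 < L) (q d : ℕ) :
    Continuous (fun x => Ndg φ q L (w x) d) := by
  obtain ⟨N, hN⟩ := cut_off w s hs L hL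
  have h1 : (fun x => Ndg φ q L (w x) d) = fun x => ∑ n ∈ Finset.range N,
      if Nat.Coprime n q then jo φ d n / Real.sqrt n * w x (Real.log n / L) else 0 := by
    funext x
    unfold Ndg
    apply tsum_eq_sum
    intro n hn
    rw [hN n (by simpa using hn) x]
    simp
  rw [h1]
  refine continuous_finsetSum _ fun n _ => ?_
  split_ifs
  · exact continuous_const.mul (hw.comp (continuous_id.prodMk continuous_const))
  · exact continuous_const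

theorem Mdg_cont (φ : FD) (w : ℝ → ℝ → ℝ) (s : ℝ) (hw : Continuous (fun p : ℝ × ℝ => w p.1 p.2))
    (hs : ∀ x y, w x y ≠ 0 → y ≤ s) (L : ℝ) (hL : 0 < L) (q d : ℕ) :
    Continuous (fun x => Mdg φ q L (w x) d) := by
  obtain ⟨N, hN⟩ := cut_off w s hs L hL
  have h1 : (fun x => Mdg φ q L (w x) d) = fun x => ∑ n ∈ Finset.range N,
      if Nat.Coprime n q then ((ArithmeticFunction.moebius n : ℤ) : ℝ) * jo φ d n /
        Real.sqrt n * w x (Real.log n / L) else 0 := by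
    funext x
    unfold Mdg
    apply tsum_eq_sum
    intro n hn
    rw [hN n (by simpa using hn) x]
    simp
  rw [h1]
  refine continuous_finsetSum _ fun n _ => ?_
  split_ifs
  · exact continuous_const.mul (hw.comp (continuous_id.prodMk continuous_const))
  · exact continuous_const

theorem abs_jo_le (φ : FD) (d n : ℕ) : |jo φ d n| ≤ 1 := by
  unfold jo
  split_ifs
  · exact abs_js_le _ _
  · simp

theorem ex_ge (φ : FD) : -(3 / 4) ≤ φ.ex := by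
  unfold FD.ex
  have : (0 : ℝ) ≤ φ.a := Nat.cast_nonneg _
  linarith

/-- the weight `e^{-πv} v^{α} e^{a(1/2+β)} (8v)^{a/(2L)}` -/
noncomputable def Hg (α L β a v : ℝ) : ℝ :=
  Real.exp (-(Real.pi * v)) * v ^ α *
    (Real.exp (a * (1 / 2 + β)) * (8 * v) ^ (a / (2 * L)))

theorem Hg_int (α L β a : ℝ) (hα : -(3 / 4) ≤ α) (hL : 0 < L) (ha : 0 ≤ a) :
    IntegrableOn (Hg α L β a) (Set.Ioi 0) := by
  have h1 : IntegrableOn (fun v : ℝ => v ^ (α + a / (2 * L)) *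
      Real.exp (-Real.pi * v ^ (1 : ℝ))) (Set.Ioi 0) := by
    apply integrableOn_rpow_mul_exp_neg_mul_rpow
    · have : 0 ≤ a / (2 * L) := by positivity
      linarith
    · norm_num
    · exact Real.pi_pos
  have h2 := h1.const_mul (Real.exp (a * (1 / 2 + β)) * (8 : ℝ) ^ (a / (2 * L)))
  refine IntegrableOn.congr_fun h2 ?_ measurableSet_Ioi
  intro v hv
  have hv' : (0 : ℝ) < v := hv
  simp only [Hg]
  rw [Real.mul_rpow (by norm_num) hv'.le, Real.rpow_add hv', Real.rpow_one]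
  have : Real.exp (-Real.pi * v) = Real.exp (-(Real.pi * v)) := by ring_nf
  rw [this]
  ring

/-- pointwise bound of the integrand of `KWg` -/
theorem kwg_bound (α L β δ B X1 : ℝ) (hL : 0 < L) (hX1L : 2 * X1 ≤ L) (hX1 : 0 ≤ X1)
    (hB : 0 ≤ B) (f : ℝ → ℝ) (h0 : ∀ τ, τ ≤ -δ → f τ = 0)
    (hb : ∀ τ, |f τ| ≤ B * Real.exp (X1 * |τ|)) (y : ℝ) (hy : 0 ≤ y) (v : ℝ) (hv : 0 < v) :
    |Real.exp (-(Real.pi * v)) * v ^ α * f (TV L β v - y)| ≤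
    Real.exp (-(3 / 2 * L * y)) * (B * Real.exp (2 * L * δ) *
      (Hg α L β (2 * L + X1) v + Hg α L β (2 * L - X1) v)) := by
  set τ := TV L β v - y with hτ
  have h8v : 0 < 8 * v := by positivity
  -- exponentials of τ
  have hexp : ∀ a : ℝ, 3 / 2 * L ≤ a → Real.exp (a * τ) ≤
      Real.exp (-(3 / 2 * L * y)) * (Real.exp (a * (1 / 2 + β)) * (8 * v) ^ (a / (2 * L))) := by
    intro a ha
    have h1 : Real.exp (a * τ) = Real.exp (-(a * y)) *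
        (Real.exp (a * (1 / 2 + β)) * (8 * v) ^ (a / (2 * L))) := by
      rw [Real.rpow_def_of_pos h8v, ← Real.exp_add, ← Real.exp_add, hτ]
      congr 1
      unfold TV
      field_simp
      ring
    rw [h1]
    refine mul_le_mul_of_nonneg_right ?_ (by positivity)
    apply Real.exp_le_exp.2
    have := mul_le_mul_of_nonneg_right ha hy
    linarith
  have hf : |f τ| ≤ B * Real.exp (2 * L * δ) *
      (Real.exp ((2 * L + X1) * τ) + Real.exp ((2 * L - X1) * τ)) := by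
    by_cases hδ : τ ≤ -δ
    · rw [h0 τ hδ, abs_zero]
      positivity
    · have h1 : 1 ≤ Real.exp (2 * L * δ) * Real.exp (2 * L * τ) := by
        rw [← Real.exp_add]
        apply Real.one_le_exp
        have : 0 ≤ τ + δ := by linarith [not_le.1 hδ]
        have h2 : 0 ≤ 2 * L * (τ + δ) := by positivity
        linarith
      have h2 : Real.exp (X1 * |τ|) ≤ Real.exp (X1 * τ) + Real.exp (-(X1 * τ)) := by
        rcases abs_cases τ with ⟨h, _⟩ | ⟨h, _⟩ <;> rw [h]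
        · linarith [Real.exp_pos (-(X1 * τ))]
        · have : X1 * -τ = -(X1 * τ) := by ring
          rw [this]
          linarith [Real.exp_pos (X1 * τ)]
      have h3 : Real.exp ((2 * L + X1) * τ) + Real.exp ((2 * L - X1) * τ) =
          Real.exp (2 * L * τ) * (Real.exp (X1 * τ) + Real.exp (-(X1 * τ))) := by
        rw [mul_add, ← Real.exp_add, ← Real.exp_add]
        ring_nf
      rw [h3]
      calc |f τ| ≤ B * Real.exp (X1 * |τ|) := hb τ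
        _ ≤ B * (Real.exp (X1 * τ) + Real.exp (-(X1 * τ))) := mul_le_mul_of_nonneg_left h2 hB
        _ = B * (1 * (Real.exp (X1 * τ) + Real.exp (-(X1 * τ)))) := by ring
        _ ≤ B * ((Real.exp (2 * L * δ) * Real.exp (2 * L * τ)) *
            (Real.exp (X1 * τ) + Real.exp (-(X1 * τ)))) := by
          refine mul_le_mul_of_nonneg_left (mul_le_mul_of_nonneg_right h1 ?_) hB
          positivity
        _ = _ := by ring
  have hw : 0 ≤ Real.exp (-(Real.pi * v)) * v ^ α := by positivity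
  rw [abs_mul, abs_of_nonneg hw]
  have h5 := hexp (2 * L + X1) (by linarith)
  have h6 := hexp (2 * L - X1) (by linarith)
  calc Real.exp (-(Real.pi * v)) * v ^ α * |f τ|
      ≤ Real.exp (-(Real.pi * v)) * v ^ α * (B * Real.exp (2 * L * δ) *
        (Real.exp ((2 * L + X1) * τ) + Real.exp ((2 * L - X1) * τ))) :=
        mul_le_mul_of_nonneg_left hf hw
    _ ≤ Real.exp (-(Real.pi * v)) * v ^ α * (B * Real.exp (2 * L * δ) *
        (Real.exp (-(3 / 2 * L * y)) * (Real.exp ((2 * L + X1) * (1 / 2 + β)) *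
          (8 * v) ^ ((2 * L + X1) / (2 * L))) +
        Real.exp (-(3 / 2 * L * y)) * (Real.exp ((2 * L - X1) * (1 / 2 + β)) *
          (8 * v) ^ ((2 * L - X1) / (2 * L))))) := by
        refine mul_le_mul_of_nonneg_left (mul_le_mul_of_nonneg_left (add_le_add h5 h6) ?_) hw
        positivity
    _ = _ := by
        unfold Hg
        ring

theorem kwg_meas (α L β y : ℝ) (f : ℝ → ℝ) (hf : Measurable f) :
    Measurable (fun v : ℝ => Real.exp (-(Real.pi * v)) * v ^ α *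
      f (TV L β v - y)) := by
  have h1 : Measurable (fun v : ℝ => TV L β v - y) := by
    unfold TV
    fun_prop
  have h2 : Measurable (fun v : ℝ => Real.exp (-(Real.pi * v)) * v ^ α) := by
    fun_prop
  exact h2.mul (hf.comp h1)

theorem eta_abs (φ : FD) (hφ : FG φ) : |φ.η / Real.sqrt 2| ≤ 1 / Real.sqrt 2 := by
  rw [abs_div, abs_of_nonneg (Real.sqrt_nonneg 2)]
  refine div_le_div_of_nonneg_right ?_ (Real.sqrt_nonneg 2)
  rcases hφ.hη with h | h | h <;> rw [h] <;> simp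

theorem inv_sqrt2_lt : 1 / Real.sqrt 2 < 1 := by
  rw [div_lt_one (by positivity)]
  exact Real.lt_sqrt_of_sq_lt (by norm_num)

/-- continuity and bound for `KWg` at `y ≥ 0` -/
theorem KWg_cb (φ : FD) (L β δ B X1 X0 : ℝ) (hL : 0 < L) (hX1 : 0 ≤ X1) (hX1L : 2 * X1 ≤ L)
    (hB : 0 ≤ B) (Φ : ℝ → ℝ → ℝ) (hΦ : Continuous (fun p : ℝ × ℝ => Φ p.1 p.2))
    (h0 : ∀ x τ, τ ≤ -δ → Φ x τ = 0)
    (hb : ∀ x ∈ Set.Icc 0 X0, ∀ τ, |Φ x τ| ≤ B * Real.exp (X1 * |τ|)) :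
    ∃ K : ℝ, 0 ≤ K ∧ ∀ y : ℝ, 0 ≤ y →
      ContinuousOn (fun x => KWg φ L β (Φ x) y) (Set.Icc 0 X0) ∧
      ∀ x ∈ Set.Icc 0 X0, |KWg φ L β (Φ x) y| ≤ K * Real.exp (-(3 / 2 * L * y)) := by
  have hI : IntegrableOn (fun v => B * Real.exp (2 * L * δ) *
      (Hg φ.ex L β (2 * L + X1) v + Hg φ.ex L β (2 * L - X1) v)) (Set.Ioi 0) :=
    ((Hg_int _ L β _ (ex_ge φ) hL (by linarith)).add
      (Hg_int _ L β _ (ex_ge φ) hL (by linarith))).const_mul _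
  have hcx : ∀ x, Continuous (Φ x) := fun x => hΦ.comp (continuous_const.prodMk continuous_id)
  set K := ∫ v in Set.Ioi (0 : ℝ), B * Real.exp (2 * L * δ) *
      (Hg φ.ex L β (2 * L + X1) v + Hg φ.ex L β (2 * L - X1) v) with hK
  have hK0 : 0 ≤ K := by
    rw [hK]
    refine setIntegral_nonneg measurableSet_Ioi fun v hv => ?_
    have hv' : (0 : ℝ) < v := hv
    unfold Hg
    positivity
  refine ⟨K / |g0g φ|, div_nonneg hK0 (abs_nonneg _), fun y hy => ⟨?_, fun x hx => ?_⟩⟩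
  · unfold KWg
    refine ContinuousOn.div_const ?_ _
    refine continuousOn_of_dominated (bound := fun v => Real.exp (-(3 / 2 * L * y)) *
      (B * Real.exp (2 * L * δ) *
        (Hg φ.ex L β (2 * L + X1) v + Hg φ.ex L β (2 * L - X1) v))) ?_ ?_ ?_ ?_
    · intro x _
      exact (kwg_meas _ L β _ _ (hcx x).measurable).aestronglyMeasurable
    · intro x hx
      refine (ae_restrict_iff' measurableSet_Ioi).2 (Eventually.of_forall fun v hv => ?_)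
      rw [Real.norm_eq_abs]
      exact kwg_bound _ L β δ B X1 hL hX1L hX1 hB (Φ x) (h0 x) (hb x hx) y hy v hv
    · exact hI.const_mul _
    · refine Eventually.of_forall fun v => ?_
      exact (continuous_const.mul (hΦ.comp (continuous_id.prodMk continuous_const))).continuousOn
  · unfold KWg
    rw [abs_div]
    have h1 := norm_integral_le_of_norm_le (μ := volume.restrict (Set.Ioi (0 : ℝ)))
      (f := fun v => Real.exp (-(Real.pi * v)) * v ^ φ.ex * Φ x (TV L β v - y))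
      (g := fun v => Real.exp (-(3 / 2 * L * y)) *
      (B * Real.exp (2 * L * δ) *
        (Hg φ.ex L β (2 * L + X1) v + Hg φ.ex L β (2 * L - X1) v)))
      (hI.const_mul _) ((ae_restrict_iff' measurableSet_Ioi).2
        (Eventually.of_forall fun v hv => by
          rw [Real.norm_eq_abs]
          exact kwg_bound _ L β δ B X1 hL hX1L hX1 hB (Φ x) (h0 x) (hb x hx) y hy v hv))
    rw [integral_const_mul, ← hK, Real.norm_eq_abs] at h1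
    calc _ ≤ (Real.exp (-(3 / 2 * L * y)) * K) / |g0g φ| :=
          div_le_div_of_nonneg_right h1 (abs_nonneg _)
      _ = _ := by ring

theorem sum_geo : Summable (fun j : ℕ => (1 / Real.sqrt 2) ^ j) :=
  summable_geometric_of_lt_one (by positivity) inv_sqrt2_lt

/-- continuity and bound for `KGg` at `y ≥ 0` -/
theorem KGg_cb (φ : FD) (hφ : FG φ) (L β δ B X1 X0 : ℝ) (hL : 0 < L) (hX1 : 0 ≤ X1)
    (hX1L : 2 * X1 ≤ L)
    (hB : 0 ≤ B) (Φ : ℝ → ℝ → ℝ) (hΦ : Continuous (fun p : ℝ × ℝ => Φ p.1 p.2))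
    (h0 : ∀ x τ, τ ≤ -δ → Φ x τ = 0)
    (hb : ∀ x ∈ Set.Icc 0 X0, ∀ τ, |Φ x τ| ≤ B * Real.exp (X1 * |τ|)) :
    ∃ K : ℝ, 0 ≤ K ∧ ∀ y : ℝ, 0 ≤ y →
      ContinuousOn (fun x => KGg φ L β (Φ x) y) (Set.Icc 0 X0) ∧
      ∀ x ∈ Set.Icc 0 X0, |KGg φ L β (Φ x) y| ≤ K * Real.exp (-(3 / 2 * L * y)) := by
  obtain ⟨K, hK0, hK⟩ := KWg_cb φ L β δ B X1 X0 hL hX1 hX1L hB Φ hΦ h0 hb
  have hlog : 0 ≤ Real.log 2 / L := div_nonneg (Real.log_nonneg (by norm_num)) hL.le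
  have hyj : ∀ (y : ℝ) (j : ℕ), 0 ≤ y → y ≤ y + j * (Real.log 2 / L) := by
    intro y j _
    have : 0 ≤ (j : ℝ) * (Real.log 2 / L) := by positivity
    linarith
  have hsum : ∀ c : ℝ, Summable (fun j : ℕ => (1 / Real.sqrt 2) ^ j * c) :=
    fun c => sum_geo.mul_right c
  have hterm : ∀ (y : ℝ), 0 ≤ y → ∀ (j : ℕ), ∀ x ∈ Set.Icc 0 X0,
      ‖(φ.η / Real.sqrt 2) ^ j * KWg φ L β (Φ x) (y + j * (Real.log 2 / L))‖ ≤
        (1 / Real.sqrt 2) ^ j * (K * Real.exp (-(3 / 2 * L * y))) := by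
    intro y hy j x hx
    have h1 := hyj y j hy
    rw [Real.norm_eq_abs, abs_mul, abs_pow]
    refine mul_le_mul (pow_le_pow_left₀ (abs_nonneg _) (eta_abs φ hφ) j) ?_ (abs_nonneg _)
      (by positivity)
    refine ((hK _ (hy.trans h1)).2 x hx).trans (mul_le_mul_of_nonneg_left ?_ hK0)
    apply Real.exp_le_exp.2
    have : 3 / 2 * L * y ≤ 3 / 2 * L * (y + j * (Real.log 2 / L)) :=
      mul_le_mul_of_nonneg_left h1 (by positivity)
    linarith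
  refine ⟨(∑' j : ℕ, (1 / Real.sqrt 2) ^ j) * K, by positivity, fun y hy => ⟨?_, fun x hx => ?_⟩⟩
  · unfold KGg
    refine continuousOn_tsum (u := fun j : ℕ =>
      (1 / Real.sqrt 2) ^ j * (K * Real.exp (-(3 / 2 * L * y)))) (fun j => ?_) (hsum _) ?_
    · exact ContinuousOn.mul continuousOn_const (hK _ (hy.trans (hyj y j hy))).1
    · exact fun j x hx => hterm y hy j x hx
  · unfold KGg
    have h1 : Summable (fun j : ℕ =>
        ‖(φ.η / Real.sqrt 2) ^ j * KWg φ L β (Φ x) (y + j * (Real.log 2 / L))‖) :=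
      Summable.of_nonneg_of_le (fun _ => norm_nonneg _) (fun j => hterm y hy j x hx) (hsum _)
    have h2 := norm_tsum_le_tsum_norm h1
    have h3 := h1.tsum_le_tsum (fun j => hterm y hy j x hx) (hsum _)
    rw [Real.norm_eq_abs] at h2
    refine (h2.trans h3).trans (le_of_eq ?_)
    rw [tsum_mul_right]
    ring

theorem Nfg_cont (φ : FD) (hφ : FG φ) (L β δ B X1 X0 : ℝ) (hL : 0 < L) (hX1 : 0 ≤ X1)
    (hX1L : 2 * X1 ≤ L) (hB : 0 ≤ B)
    (Φ : ℝ → ℝ → ℝ) (hΦ : Continuous (fun p : ℝ × ℝ => Φ p.1 p.2))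
    (h0 : ∀ x τ, τ ≤ -δ → Φ x τ = 0)
    (hb : ∀ x ∈ Set.Icc 0 X0, ∀ τ, |Φ x τ| ≤ B * Real.exp (X1 * |τ|)) (d : ℕ) :
    ContinuousOn (fun x => Nfg φ L (KGg φ L β (Φ x)) d) (Set.Icc 0 X0) := by
  obtain ⟨K, hK0, hK⟩ := KGg_cb φ hφ L β δ B X1 X0 hL hX1 hX1L hB Φ hΦ h0 hb
  have hy : ∀ n : ℕ, 0 ≤ Real.log ((n : ℝ) + 1) / L := fun n =>
    div_nonneg (Real.log_nonneg (by linarith [(Nat.cast_nonneg n : (0 : ℝ) ≤ n)])) hL.le
  have hexp : ∀ n : ℕ, Real.exp (-(3 / 2 * L * (Real.log ((n : ℝ) + 1) / L))) =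
      ((n : ℝ) + 1) ^ (-(3 / 2) : ℝ) := by
    intro n
    have hn : (0 : ℝ) < (n : ℝ) + 1 := by positivity
    rw [Real.rpow_def_of_pos hn]
    congr 1
    field_simp
  unfold Nfg
  refine continuousOn_tsum (u := fun n : ℕ => K * ((n : ℝ) + 1) ^ (-(3 / 2) : ℝ))
    (fun n => ContinuousOn.mul continuousOn_const (hK _ (hy n)).1) ?_ ?_
  · have h1 : Summable (fun n : ℕ => ((n : ℝ) + 1) ^ (-(3 / 2) : ℝ)) := by
      have h2 : Summable (fun n : ℕ => ((n : ℕ) : ℝ) ^ (-(3 / 2) : ℝ)) :=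
        Real.summable_nat_rpow.2 (by norm_num)
      have h3 := (summable_nat_add_iff 1).2 h2
      refine h3.congr fun n => ?_
      push_cast
      rfl
    exact h1.mul_left K
  · intro n x hx
    rw [norm_mul, Real.norm_eq_abs, Real.norm_eq_abs]
    have h1 : |jo φ d (n + 1) / Real.sqrt ((n : ℝ) + 1)| ≤ 1 := by
      rw [abs_div]
      have h2 : 1 ≤ |Real.sqrt ((n : ℝ) + 1)| := by
        rw [abs_of_nonneg (Real.sqrt_nonneg _)]
        apply Real.one_le_sqrt.2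
        linarith [(Nat.cast_nonneg n : (0 : ℝ) ≤ n)]
      rw [div_le_one (by linarith)]
      exact (abs_jo_le _ _ _).trans h2
    have h4 := (hK _ (hy n)).2 x hx
    rw [hexp n] at h4
    calc _ ≤ 1 * |KGg φ L β (Φ x) (Real.log ((n : ℝ) + 1) / L)| :=
          mul_le_mul_of_nonneg_right h1 (abs_nonneg _)
      _ = |KGg φ L β (Φ x) (Real.log ((n : ℝ) + 1) / L)| := one_mul _
      _ ≤ _ := h4

theorem ceg_ne (φ : FD) (hφ : FG φ) : ceg φ ≠ 0 := by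
  unfold ceg
  have h1 := eta_abs φ hφ
  have h2 := inv_sqrt2_lt
  have h3 := le_abs_self (φ.η / Real.sqrt 2)
  have h4 : 0 < 1 - φ.η / Real.sqrt 2 := by linarith
  positivity

theorem MR4G_of (φ : FD) (hφ : FG φ) (hKE : St_KEG φ) (hGB : St_GBG φ) (hW3 : St_W3)
    (hW4 : St_W4)
    (F : ℝ → ℝ) (hF : TF F) (hF0 : ∀ x, 0 ≤ F x)
    (δ e : ℝ) (hδ : 0 < δ) (_hδ1 : δ < 1 / 8) (he : 0 < e) (he1 : e ≤ 1)
    (ρ κ ζ χ : ℝ → ℝ) (hρ : RH δ ρ)
    (hκ : KP δ e κ) (hζ : ST (-1 / 2) (-1 / 4) ζ) (θ' θ : ℝ) (hθ' : 0 < θ') (hθθ : θ' < θ)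
    (hA : Adm2 (1 / 2 + 3 * δ) θ) (hχ : ST θ' θ χ) (c c' : ℝ → ℝ)
    (hc : ∀ x, HasDerivAt c (c' x) x) (hc' : Continuous c') (X0 : ℝ) (hX0 : 0 ≤ X0) (ε : ℝ)
    (hε : 0 < ε) :
    ∃ L0 : ℝ, ∀ L : ℝ, L0 ≤ L →
      EAg φ F (Real.exp L) (fun d =>
        |(Gtg φ L ρ ζ χ c d X0 ^ 2 +
            ∫ x in (0 : ℝ)..X0, 2 * |Gtg φ L ρ ζ χ c d x| * |Gt1g φ L ρ ζ χ c c' d x|)
        - (G0g φ 2 L (c X0) (Wf ρ κ X0) (qf ζ χ X0) d ^ 2 +
          ∫ x in (0 : ℝ)..X0, 2 * |G0g φ 2 L (c x) (Wf ρ κ x) (qf ζ χ x) d| *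
          |G1g φ 2 L (c x) (c' x) (Wf ρ κ x) (Wf1 ρ κ x) (qf ζ χ x) (qf1 ζ χ x) d|)|) ≤ ε := by
  obtain ⟨CK, LK, kK, hCK, hLK, hKEb⟩ :=
    hKE F hF hF0 δ e θ hδ he he1 hA κ hκ (X0 + 1) (by linarith)
  obtain ⟨CG, LG, kG, hCG, hGBb⟩ :=
    hGB F hF hF0 2 (by norm_num) (by norm_num) 1 one_pos (1 / 2 + 3 * δ) θ hA
  obtain ⟨BP, hBP⟩ := Gr_Ph kK δ ρ hρ X0
  obtain ⟨BP1, hBP1⟩ := Gr_Ph1 kK δ ρ hρ X0
  obtain ⟨h3a, -, h3c, h3d, h3e⟩ := hW3 ζ χ hζ θ' θ hθ' hθθ hA.hθ1 hχ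
  obtain ⟨h4a, -, h4c, h4d, h4e⟩ := hW4 δ e hδ he he1 ρ κ hρ hκ
  obtain ⟨BQ, hBQ⟩ := h3c kK X0
  obtain ⟨BG, hBG⟩ := h3c kG X0
  obtain ⟨BW, hBW⟩ := h4c kG X0
  have hcc : Continuous c := continuous_iff_continuousAt.2 fun x => (hc x).continuousAt
  have hce := ceg_ne φ hφ
  set κe : ℝ := ceg φ with hκe
  have hcq : Continuous (fun x => c x / κe) := hcc.div_const _
  have hcq' : Continuous (fun x => c' x / κe) := hc'.div_const _
  obtain ⟨m1, hm1⟩ := (isCompact_Icc (a := (0 : ℝ)) (b := X0)).exists_bound_of_continuousOn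
    hcc.continuousOn
  obtain ⟨m2, hm2⟩ := (isCompact_Icc (a := (0 : ℝ)) (b := X0)).exists_bound_of_continuousOn
    hc'.continuousOn
  obtain ⟨m3, hm3⟩ := (isCompact_Icc (a := (0 : ℝ)) (b := X0)).exists_bound_of_continuousOn
    hcq.continuousOn
  obtain ⟨m4, hm4⟩ := (isCompact_Icc (a := (0 : ℝ)) (b := X0)).exists_bound_of_continuousOn
    hcq'.continuousOn
  -- squares of `c`, `c'`
  set M : ℝ := m1 ^ 2 + m2 ^ 2 + m3 ^ 2 + m4 ^ 2 with hM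
  have hM0 : 0 ≤ M := by positivity
  have hsq : ∀ (u m : ℝ), ‖u‖ ≤ m → u ^ 2 ≤ m ^ 2 := by
    intro u m h
    rw [Real.norm_eq_abs] at h
    rw [← sq_abs u]
    exact pow_le_pow_left₀ (abs_nonneg _) h 2
  have hcM : ∀ x ∈ Set.Icc 0 X0, c x ^ 2 ≤ M := by
    intro x hx
    have h2 := hsq _ _ (hm1 x hx)
    nlinarith [sq_nonneg m2, sq_nonneg m3, sq_nonneg m4]
  have hcM' : ∀ x ∈ Set.Icc 0 X0, c' x ^ 2 ≤ M := by
    intro x hx
    have h2 := hsq _ _ (hm2 x hx)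
    nlinarith [sq_nonneg m1, sq_nonneg m3, sq_nonneg m4]
  have hqM : ∀ x ∈ Set.Icc 0 X0, (c x / κe) ^ 2 ≤ M := by
    intro x hx
    have h2 := hsq _ _ (hm3 x hx)
    nlinarith [sq_nonneg m2, sq_nonneg m1, sq_nonneg m4]
  have hqM' : ∀ x ∈ Set.Icc 0 X0, (c' x / κe) ^ 2 ≤ M := by
    intro x hx
    have h2 := hsq _ _ (hm4 x hx)
    nlinarith [sq_nonneg m2, sq_nonneg m3, sq_nonneg m1]
  set e1 : ℝ := CK * BP ^ 2 * BQ ^ 2 with he1'
  set e2 : ℝ := CK * BP1 ^ 2 * BQ ^ 2 with he2'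
  set e3 : ℝ := CG * (BW ^ 2 * BG ^ 2) with he3'
  have he10 : 0 ≤ e1 := by positivity
  have he20 : 0 ≤ e2 := by positivity
  have he30 : 0 ≤ e3 := by positivity
  set K : ℝ := 1 + 3 * M * (2 * e1 + e2) + CG + 2 * M * e3 with hK
  have hMe1 : 0 ≤ M * e1 := mul_nonneg hM0 he10
  have hMe2 : 0 ≤ M * e2 := mul_nonneg hM0 he20
  have hMe3 : 0 ≤ M * e3 := mul_nonneg hM0 he30
  have hKx : K = 1 + 6 * (M * e1) + 3 * (M * e2) + CG + 2 * (M * e3) := by rw [hK]; ring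
  have hK1 : 1 ≤ K := by rw [hKx]; linarith
  have hK0 : 0 ≤ K := by linarith
  have hKK : K ≤ K ^ 2 := by nlinarith
  refine ⟨max (max LK LG) (max (max 1 (2 * (X0 + 1))) (K ^ 2 * (3 + 6 * X0) / ε)),
    fun L hL => ?_⟩
  have hL1 : LK ≤ L := (le_max_left _ _).trans ((le_max_left _ _).trans hL)
  have hL2 : LG ≤ L := (le_max_right _ _).trans ((le_max_left _ _).trans hL)
  have hL3 : 1 ≤ L := (le_max_left _ _).trans ((le_max_left _ _).trans ((le_max_right _ _).trans hL))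
  have hL4 : 2 * (X0 + 1) ≤ L :=
    (le_max_right _ _).trans ((le_max_left _ _).trans ((le_max_right _ _).trans hL))
  have hL5 : K ^ 2 * (3 + 6 * X0) / ε ≤ L := (le_max_right _ _).trans ((le_max_right _ _).trans hL)
  have hL0 : 0 < L := by linarith
  obtain ⟨S, ω, hω, hS⟩ := EAg_fin φ F hF hF0 (Real.exp L) (Real.exp_pos _)
  rw [hS]
  -- the three errors
  have hE1 : ∀ x ∈ Set.Icc 0 X0, ∑ d ∈ S, ω d * ((Nfg φ L (KGg φ L (beg φ L d) (Ph ρ x)) d -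
      κe * Ndg φ 2 L (Wf ρ κ x) d) * Mdg φ 2 L (qf ζ χ x) d) ^ 2 ≤ e1 / L ^ 2 := by
    intro x hx
    have h1 := hKEb L (Ph ρ x) (qf ζ χ x) BP BQ hL1 (hBP x hx.1 hx.2).smooth
      (fun τ hτ => by unfold Ph; rw [hρ.zero τ hτ, mul_zero]) (hBP x hx.1 hx.2).bd
      (fun j => by
        obtain ⟨B', hB'⟩ := Gr_Ph j δ ρ hρ X0
        exact ⟨B', (hB' x hx.1 hx.2).bd j le_rfl⟩) (h3a x).1
      (hBQ x (by rw [abs_of_nonneg hx.1]; exact hx.2)).1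
    rw [hS] at h1
    exact h1
  have hE2 : ∀ x ∈ Set.Icc 0 X0, ∑ d ∈ S, ω d * ((Nfg φ L (KGg φ L (beg φ L d) (Ph1 ρ x)) d -
      κe * Ndg φ 2 L (Wf1 ρ κ x) d) * Mdg φ 2 L (qf ζ χ x) d) ^ 2 ≤ e2 / L ^ 2 := by
    intro x hx
    have h1 := hKEb L (Ph1 ρ x) (qf ζ χ x) BP1 BQ hL1 (hBP1 x hx.1 hx.2).smooth
      (fun τ hτ => by unfold Ph1; rw [hρ.zero τ hτ, mul_zero]) (hBP1 x hx.1 hx.2).bd
      (fun j => by
        obtain ⟨B', hB'⟩ := Gr_Ph1 j δ ρ hρ X0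
        exact ⟨B', (hB' x hx.1 hx.2).bd j le_rfl⟩) (h3a x).1
      (hBQ x (by rw [abs_of_nonneg hx.1]; exact hx.2)).1
    rw [hS] at h1
    exact h1
  have hE3 : ∀ x ∈ Set.Icc 0 X0, ∑ d ∈ S, ω d * ((Nfg φ L (KGg φ L (beg φ L d) (Ph ρ x)) d -
      κe * Ndg φ 2 L (Wf ρ κ x) d) * Mdg φ 2 L (qf1 ζ χ x) d) ^ 2 ≤ e1 / L ^ 2 := by
    intro x hx
    have h1 := hKEb L (Ph ρ x) (qf1 ζ χ x) BP BQ hL1 (hBP x hx.1 hx.2).smooth
      (fun τ hτ => by unfold Ph; rw [hρ.zero τ hτ, mul_zero]) (hBP x hx.1 hx.2).bd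
      (fun j => by
        obtain ⟨B', hB'⟩ := Gr_Ph j δ ρ hρ X0
        exact ⟨B', (hB' x hx.1 hx.2).bd j le_rfl⟩) (h3a x).2
      (hBQ x (by rw [abs_of_nonneg hx.1]; exact hx.2)).2
    rw [hS] at h1
    exact h1
  have hGG : ∀ x ∈ Set.Icc 0 X0,
      (∑ d ∈ S, ω d * G0g φ 2 L (c x) (Wf ρ κ x) (qf ζ χ x) d ^ 2 ≤ CG + M * e3) ∧
      ∑ d ∈ S, ω d * G1g φ 2 L (c x) (c' x) (Wf ρ κ x) (Wf1 ρ κ x) (qf ζ χ x) (qf1 ζ χ x) d ^ 2 ≤
        2 * M * e3 := by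
    intro x hx
    have hax : |x| ≤ X0 := by rw [abs_of_nonneg hx.1]; exact hx.2
    obtain ⟨-, h2, h3⟩ := hGBb L hL2 (Wf ρ κ x) (Wf1 ρ κ x) (qf ζ χ x) (qf1 ζ χ x) BW BG (c x) (c' x)
      (h4a x).1 (h4a x).2 (h3a x).1 (h3a x).2 (hBW x hax).1 (hBW x hax).2 (hBG x hax).1
      (hBG x hax).2
    rw [one_mul, hS] at h2 h3
    constructor
    · refine h2.trans ?_
      have := mul_le_mul_of_nonneg_right (hcM x hx) he30
      have h6 : CG * (1 + c x ^ 2 * BW ^ 2 * BG ^ 2) = CG + c x ^ 2 * e3 := by rw [he3']; ring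
      rw [h6]
      linarith
    · refine h3.trans ?_
      have h5 := mul_le_mul_of_nonneg_right (add_le_add (hcM x hx) (hcM' x hx)) he30
      have h6 : CG * ((c x ^ 2 + c' x ^ 2) * BW ^ 2 * BG ^ 2) = (c x ^ 2 + c' x ^ 2) * e3 := by
        rw [he3']; ring
      rw [h6]
      linarith
  have hdiv : ∀ a : ℝ, a ≤ K → a / L ^ 2 ≤ (K / L) ^ 2 := by
    intro a ha
    rw [div_pow]
    exact div_le_div_of_nonneg_right (ha.trans hKK) (by positivity)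
  -- continuity
  have cNf : ∀ d, ContinuousOn (fun x => Nfg φ L (KGg φ L (beg φ L d) (Ph ρ x)) d)
      (Set.Icc 0 X0) := by
    intro d
    obtain ⟨B, hB⟩ := Gr_Ph 0 δ ρ hρ X0
    refine Nfg_cont φ hφ L (beg φ L d) δ B (X0 + 1) X0 hL0 (by linarith) hL4
      (hB 0 le_rfl hX0).nonneg (Ph ρ) (Ph_cont ρ hρ.smooth.continuous)
      (fun x τ hτ => by unfold Ph; rw [hρ.zero τ hτ, mul_zero]) (fun x hx τ => ?_) d
    have := (hB x hx.1 hx.2).bd 0 le_rfl τ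
    rwa [iteratedDeriv_zero] at this
  have cNf1 : ∀ d, ContinuousOn (fun x => Nfg φ L (KGg φ L (beg φ L d) (Ph1 ρ x)) d)
      (Set.Icc 0 X0) := by
    intro d
    obtain ⟨B, hB⟩ := Gr_Ph1 0 δ ρ hρ X0
    refine Nfg_cont φ hφ L (beg φ L d) δ B (X0 + 1) X0 hL0 (by linarith) hL4
      (hB 0 le_rfl hX0).nonneg (Ph1 ρ) (Ph1_cont ρ hρ.smooth.continuous)
      (fun x τ hτ => by unfold Ph1; rw [hρ.zero τ hτ, mul_zero]) (fun x hx τ => ?_) d
    have := (hB x hx.1 hx.2).bd 0 le_rfl τ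
    rwa [iteratedDeriv_zero] at this
  have cNd : ∀ d, Continuous (fun x => Ndg φ 2 L (Wf ρ κ x) d) := fun d =>
    Ndg_cont φ (Wf ρ κ) _ h4d (fun x y h => ((h4a x).1.supp y h).2) L hL0 2 d
  have cNd1 : ∀ d, Continuous (fun x => Ndg φ 2 L (Wf1 ρ κ x) d) := fun d =>
    Ndg_cont φ (Wf1 ρ κ) _ h4e (fun x y h => ((h4a x).2.supp y h).2) L hL0 2 d
  have cMd : ∀ d, Continuous (fun x => Mdg φ 2 L (qf ζ χ x) d) := fun d =>
    Mdg_cont φ (qf ζ χ) _ h3d (fun x y h => ((h3a x).1.supp y h).2) L hL0 2 d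
  have cMd1 : ∀ d, Continuous (fun x => Mdg φ 2 L (qf1 ζ χ x) d) := fun d =>
    Mdg_cont φ (qf1 ζ χ) _ h3e (fun x y h => ((h3a x).2.supp y h).2) L hL0 2 d
  have hcx : ∀ x, c x = c x / κe * κe := fun x => (div_mul_cancel₀ _ hce).symm
  have hcx' : ∀ x, c' x = c' x / κe * κe := fun x => (div_mul_cancel₀ _ hce).symm
  have key := perturb S ω hω X0 K L hX0 hL3 hK0 (fun d x => Gtg φ L ρ ζ χ c d x)
    (fun d x => Gt1g φ L ρ ζ χ c c' d x) (fun d x => G0g φ 2 L (c x) (Wf ρ κ x) (qf ζ χ x) d)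
    (fun d x => G1g φ 2 L (c x) (c' x) (Wf ρ κ x) (Wf1 ρ κ x) (qf ζ χ x) (qf1 ζ χ x) d)
    (fun d => by
      unfold Gtg
      exact continuousOn_const.sub (hcq.continuousOn.mul ((cNf d).mul (cMd d).continuousOn)))
    (fun d => by
      unfold Gt1g
      exact ((hcq'.continuousOn.mul ((cNf d).mul (cMd d).continuousOn)).add
        (hcq.continuousOn.mul (((cNf1 d).mul (cMd d).continuousOn).add
          ((cNf d).mul (cMd1 d).continuousOn)))).neg)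
    (fun d => by
      unfold G0g
      exact (continuous_const.sub (hcc.mul ((cNd d).mul (cMd d)))).continuousOn)
    (fun d => by
      unfold G1g
      exact (((hc'.mul ((cNd d).mul (cMd d))).add
        (hcc.mul (((cNd1 d).mul (cMd d)).add ((cNd d).mul (cMd1 d))))).neg).continuousOn)
    ?_ ?_ ?_ ?_
  · refine key.trans ?_
    rw [div_le_iff₀ hε] at hL5
    rw [div_mul_eq_mul_div, div_le_iff₀ hL0]
    linarith
  · intro x hx
    refine le_trans ?_ (hdiv (M * e1) (by rw [hKx]; linarith))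
    have h1 : ∑ d ∈ S, ω d * (Gtg φ L ρ ζ χ c d x - G0g φ 2 L (c x) (Wf ρ κ x) (qf ζ χ x) d) ^ 2 =
        (c x / κe) ^ 2 * ∑ d ∈ S, ω d * ((Nfg φ L (KGg φ L (beg φ L d) (Ph ρ x)) d -
          κe * Ndg φ 2 L (Wf ρ κ x) d) * Mdg φ 2 L (qf ζ χ x) d) ^ 2 := by
      rw [Finset.mul_sum]
      refine Finset.sum_congr rfl fun d _ => ?_
      have e4 : Gtg φ L ρ ζ χ c d x - G0g φ 2 L (c x) (Wf ρ κ x) (qf ζ χ x) d =
          -(c x / κe * ((Nfg φ L (KGg φ L (beg φ L d) (Ph ρ x)) d -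
          κe * Ndg φ 2 L (Wf ρ κ x) d) * Mdg φ 2 L (qf ζ χ x) d)) := by
        unfold Gtg G0g
        rw [← hκe]
        linear_combination (Ndg φ 2 L (Wf ρ κ x) d * Mdg φ 2 L (qf ζ χ x) d) * hcx x
      rw [e4]
      ring
    rw [h1]
    calc _ ≤ M * (e1 / L ^ 2) := mul_le_mul (hqM x hx) (hE1 x hx)
          (Finset.sum_nonneg fun d _ => mul_nonneg (hω d) (sq_nonneg _)) hM0
      _ = _ := by ring
  · intro x hx
    refine le_trans ?_ (hdiv (3 * M * (2 * e1 + e2)) (by rw [hKx]; linarith))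
    have h1 : ∀ d, (Gt1g φ L ρ ζ χ c c' d x -
        G1g φ 2 L (c x) (c' x) (Wf ρ κ x) (Wf1 ρ κ x) (qf ζ χ x) (qf1 ζ χ x) d) ^ 2 ≤
        3 * ((c' x / κe) ^ 2 * ((Nfg φ L (KGg φ L (beg φ L d) (Ph ρ x)) d -
          κe * Ndg φ 2 L (Wf ρ κ x) d) * Mdg φ 2 L (qf ζ χ x) d) ^ 2 +
          (c x / κe) ^ 2 * ((Nfg φ L (KGg φ L (beg φ L d) (Ph1 ρ x)) d -
          κe * Ndg φ 2 L (Wf1 ρ κ x) d) * Mdg φ 2 L (qf ζ χ x) d) ^ 2 +
          (c x / κe) ^ 2 * ((Nfg φ L (KGg φ L (beg φ L d) (Ph ρ x)) d -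
          κe * Ndg φ 2 L (Wf ρ κ x) d) * Mdg φ 2 L (qf1 ζ χ x) d) ^ 2) := by
      intro d
      set u := c' x / κe * ((Nfg φ L (KGg φ L (beg φ L d) (Ph ρ x)) d -
          κe * Ndg φ 2 L (Wf ρ κ x) d) * Mdg φ 2 L (qf ζ χ x) d) with hu
      set v := c x / κe * ((Nfg φ L (KGg φ L (beg φ L d) (Ph1 ρ x)) d -
          κe * Ndg φ 2 L (Wf1 ρ κ x) d) * Mdg φ 2 L (qf ζ χ x) d) with hv
      set w := c x / κe * ((Nfg φ L (KGg φ L (beg φ L d) (Ph ρ x)) d -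
          κe * Ndg φ 2 L (Wf ρ κ x) d) * Mdg φ 2 L (qf1 ζ χ x) d) with hw
      have e4 : Gt1g φ L ρ ζ χ c c' d x -
        G1g φ 2 L (c x) (c' x) (Wf ρ κ x) (Wf1 ρ κ x) (qf ζ χ x) (qf1 ζ χ x) d =
          -(u + v + w) := by
        rw [hu, hv, hw]
        unfold Gt1g G1g
        rw [← hκe]
        linear_combination (Ndg φ 2 L (Wf ρ κ x) d * Mdg φ 2 L (qf ζ χ x) d) * hcx' x +
          (Ndg φ 2 L (Wf1 ρ κ x) d * Mdg φ 2 L (qf ζ χ x) d +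
            Ndg φ 2 L (Wf ρ κ x) d * Mdg φ 2 L (qf1 ζ χ x) d) * hcx x
      rw [e4, ← mul_pow, ← mul_pow, ← mul_pow, ← hu, ← hv, ← hw]
      nlinarith [sq_nonneg (u - v), sq_nonneg (v - w), sq_nonneg (u - w)]
    have h2 : ∑ d ∈ S, ω d * (Gt1g φ L ρ ζ χ c c' d x -
        G1g φ 2 L (c x) (c' x) (Wf ρ κ x) (Wf1 ρ κ x) (qf ζ χ x) (qf1 ζ χ x) d) ^ 2 ≤
        3 * ((c' x / κe) ^ 2 * ∑ d ∈ S, ω d * ((Nfg φ L (KGg φ L (beg φ L d) (Ph ρ x)) d -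
          κe * Ndg φ 2 L (Wf ρ κ x) d) * Mdg φ 2 L (qf ζ χ x) d) ^ 2 +
          (c x / κe) ^ 2 * ∑ d ∈ S, ω d * ((Nfg φ L (KGg φ L (beg φ L d) (Ph1 ρ x)) d -
          κe * Ndg φ 2 L (Wf1 ρ κ x) d) * Mdg φ 2 L (qf ζ χ x) d) ^ 2 +
          (c x / κe) ^ 2 * ∑ d ∈ S, ω d * ((Nfg φ L (KGg φ L (beg φ L d) (Ph ρ x)) d -
          κe * Ndg φ 2 L (Wf ρ κ x) d) * Mdg φ 2 L (qf1 ζ χ x) d) ^ 2) := by
      rw [Finset.mul_sum, Finset.mul_sum, Finset.mul_sum, ← Finset.sum_add_distrib,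
        ← Finset.sum_add_distrib, Finset.mul_sum]
      refine Finset.sum_le_sum fun d _ => ?_
      calc _ ≤ _ := mul_le_mul_of_nonneg_left (h1 d) (hω d)
        _ = _ := by ring
    refine h2.trans ?_
    have i1 := mul_le_mul (hqM' x hx) (hE1 x hx)
      (Finset.sum_nonneg fun d _ => mul_nonneg (hω d) (sq_nonneg _)) hM0
    have i2 := mul_le_mul (hqM x hx) (hE2 x hx)
      (Finset.sum_nonneg fun d _ => mul_nonneg (hω d) (sq_nonneg _)) hM0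
    have i3 := mul_le_mul (hqM x hx) (hE3 x hx)
      (Finset.sum_nonneg fun d _ => mul_nonneg (hω d) (sq_nonneg _)) hM0
    have i4 : 3 * M * (2 * e1 + e2) / L ^ 2 =
        3 * (M * (e1 / L ^ 2) + M * (e2 / L ^ 2) + M * (e1 / L ^ 2)) := by ring
    rw [i4]
    linarith
  · intro x hx
    refine (hGG x hx).1.trans (le_trans ?_ hKK)
    rw [hKx]
    linarith
  · intro x hx
    refine (hGG x hx).2.trans (le_trans ?_ hKK)
    rw [hKx]
    linarith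

end Pool.Agent.H388R3.RGMR4
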